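import Pool.Agent.Helper3.WA.Defs
import Pool.Agent.Helper3.WA.St.Stubs
import Pool.Agent.Helper48.ET.GrowthCardCore

/-! Piece WA-11: the number of words with a label. -/

set_option autoImplicit false

namespace Pool.Agent.Helper74.WA

open Finset
open Pool.Agent.Helper48.ET
open Pool.Agent.Helper3.WA

variable {p : ℕ} [Fact p.Prime]

/-- the words with a label, parametrised -/
theorem exists_param {C : ℕ} (hC : 2 ≤ C) (n : ℕ) (θ : Par p) {β ℓ : ℕ} (h : ℓ + β ≤ p) :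
    ∃ F : Fin β × (Fin n → ZMod p) → ℕ, Function.Injective F ∧
      (∀ ξ, F ξ < (2 * p) ^ (2 * (n + 1))) ∧ ∀ ξ, ∃ x z : ℕ → ZMod p, LW C n θ x z ∧
        (ℓ ≤ (x 0).val ∧ (x 0).val < ℓ + β) ∧ F ξ = enc (n + 1) x z := by
  classical
  let X : Fin β × (Fin n → ZMod p) → ℕ → ZMod p := fun ξ u =>
    if u = 0 then ((ℓ + ξ.1.val : ℕ) : ZMod p) else if hu : u - 1 < n then ξ.2 ⟨u - 1, hu⟩ else 0
  have hX0 : ∀ ξ, (X ξ 0).val = ℓ + ξ.1.val := by
    intro ξ
    have : X ξ 0 = ((ℓ + ξ.1.val : ℕ) : ZMod p) := by simp [X]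
    rw [this]
    exact ZMod.val_natCast_of_lt (by have := ξ.1.isLt; omega)
  have hXs : ∀ ξ (i : Fin n), X ξ (i.val + 1) = ξ.2 i := by
    intro ξ i
    have h1 : i.val + 1 - 1 < n := by have := i.isLt; omega
    simp only [X, Nat.add_eq_zero_iff, one_ne_zero, and_false, if_false, dif_pos h1]
    congr 1
  have hXN : ∀ ξ u, n < u → X ξ u = 0 := by
    intro ξ u hu
    have h1 : ¬ u - 1 < n := by omega
    have h2 : u ≠ 0 := by omega
    simp only [X, if_neg h2, dif_neg h1]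
  choose Z hZ using fun ξ => Pool.Agent.Helper3.WA.St.lw_exists hC n θ (X ξ) (hXN ξ)
  refine ⟨fun ξ => enc (n + 1) (X ξ) (Z ξ), ?_, fun ξ => enc_lt _ _ _, fun ξ =>
    ⟨X ξ, Z ξ, hZ ξ, ?_, rfl⟩⟩
  · intro ξ ξ' he
    have h1 := enc_inj (n + 1) he
    have h2 : ξ.1 = ξ'.1 := by
      apply Fin.ext
      have h3 := congrArg ZMod.val (h1 0 (by omega)).1
      rw [hX0, hX0] at h3
      omega
    have h4 : ξ.2 = ξ'.2 := by
      funext i
      have h3 := (h1 (i.val + 1) (by have := i.isLt; omega)).1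
      rwa [hXs, hXs] at h3
    exact Prod.ext h2 h4
  · rw [hX0]
    have := ξ.1.isLt
    omega

/-- WA-11 (number of words with a label) -/
theorem wdl_card {C : ℕ} (hC : 2 ≤ C) (n : ℕ) (θ : Par p) {β ℓ : ℕ} (h : ℓ + β ≤ p) :
    β * p ^ n ≤ (WdL C n θ β ℓ).ncard := by
  obtain ⟨F, hinj, hlt, hF⟩ := exists_param hC n θ h
  have hcard : (Set.range F).ncard = β * p ^ n := by
    rw [← Set.image_univ, Set.ncard_image_of_injective _ hinj, Set.ncard_univ,
      Nat.card_eq_fintype_card, Fintype.card_prod, Fintype.card_fun, ZMod.card, Fintype.card_fin,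
      Fintype.card_fin]
  rw [← hcard]
  apply Set.ncard_le_ncard
  · rintro _ ⟨ξ, rfl⟩
    obtain ⟨x, z, h1, h2, h3⟩ := hF ξ
    exact ⟨x, z, h1, h2, h3⟩
  · refine (Set.finite_Iio ((2 * p) ^ (2 * (n + 1)))).subset ?_
    rintro a ⟨x, z, -, -, rfl⟩
    exact enc_lt _ _ _

/-- WA-11 -/
theorem wrl_card {C : ℕ} (hC : 2 ≤ C) (n : ℕ) (θ : Par p) {β ℓ : ℕ} (h : ℓ + β ≤ p)
    (R : Set ℕ) (y : ℕ) :
    β * p ^ n * (R ∩ Set.Iio y).ncard ≤
      (WRL C n θ R β ℓ ∩ Set.Iio ((2 * p) ^ (2 * (n + 1)) * y)).ncard := by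
  obtain ⟨F, hinj, hlt, hF⟩ := exists_param hC n θ h
  have hfin : (R ∩ Set.Iio y).Finite := (Set.finite_Iio y).subset Set.inter_subset_right
  have hcard : (Set.range F).ncard = β * p ^ n := by
    rw [← Set.image_univ, Set.ncard_image_of_injective _ hinj, Set.ncard_univ,
      Nat.card_eq_fintype_card, Fintype.card_prod, Fintype.card_fun, ZMod.card, Fintype.card_fin,
      Fintype.card_fin]
  rw [← hcard, ← Set.ncard_prod]
  set Q := (2 * p) ^ (2 * (n + 1)) with hQ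
  apply Set.ncard_le_ncard_of_injOn (fun q : ℕ × ℕ => q.1 + Q * q.2)
  · rintro ⟨_, r⟩ ⟨⟨ξ, rfl⟩, hr, hry⟩
    obtain ⟨x, z, h1, h2, h3⟩ := hF ξ
    refine ⟨⟨x, z, h1, h2, r, hr, ?_⟩, ?_⟩
    · simp only [← h3]
      rw [hQ]
    · have h4 := hlt ξ
      simp only [Set.mem_Iio] at hry ⊢
      calc F ξ + Q * r < Q + Q * r := by omega
        _ = Q * (r + 1) := by ring
        _ ≤ Q * y := Nat.mul_le_mul_left _ hry
  · rintro ⟨_, r⟩ ⟨⟨ξ, rfl⟩, -⟩ ⟨_, r'⟩ ⟨⟨ξ', rfl⟩, -⟩ he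
    have h4 := hlt ξ
    have h5 := hlt ξ'
    simp only at he
    have h6 : F ξ = F ξ' := by
      have h7 := congrArg (· % Q) he
      simp only [Nat.add_mul_mod_self_left] at h7
      rwa [Nat.mod_eq_of_lt h4, Nat.mod_eq_of_lt h5] at h7
    have h8 : r = r' := by
      have h9 : Q * r = Q * r' := by omega
      have hQ0 : 0 < Q := by omega
      exact Nat.eq_of_mul_eq_mul_left hQ0 h9
    rw [Prod.mk.injEq]
    exact ⟨h6, h8⟩

end Pool.Agent.Helper74.WA
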